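import Mathlib

set_option autoImplicit false

namespace Pool.Agent.Results.MP_3da5e8_co.Determination

open Finset

/-- `Arrow n e k l` says: every graph with `n` vertices and `e` edges has a `k`-vertex induced
subgraph with exactly `l` or exactly `k.choose 2 - l` edges. -/
def Arrow (n e k l : ℕ) : Prop :=
  ∀ G : SimpleGraph (Fin n), G.edgeSet.ncard = e →
    ∃ S : Finset (Fin n), S.card = k ∧
      ((G.induce (S : Set (Fin n))).edgeSet.ncard = l ∨
        (G.induce (S : Set (Fin n))).edgeSet.ncard = k.choose 2 - l)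

section Counting

open Classical in
/-- number of ordered adjacent pairs in `S × T` -/
noncomputable def oc {n : ℕ} (G : SimpleGraph (Fin n)) (S T : Finset (Fin n)) : ℕ :=
  ((S ×ˢ T).filter (fun p => G.Adj p.1 p.2)).card

open Classical in
lemma two_ncard {W : Type} [Fintype W] (H : SimpleGraph W) :
    2 * H.edgeSet.ncard = (univ.filter (fun p : W × W => H.Adj p.1 p.2)).card := by
  have h := H.two_mul_card_edgeFinset
  have h2 : H.edgeSet.ncard = H.edgeFinset.card := by
    rw [← SimpleGraph.coe_edgeFinset, Set.ncard_coe_finset]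
  rw [h2, h]

open Classical in
lemma two_ncard_induce {n : ℕ} (G : SimpleGraph (Fin n)) (S : Finset (Fin n)) :
    2 * (G.induce (S : Set (Fin n))).edgeSet.ncard = oc G S S := by
  rw [two_ncard, oc]
  refine Finset.card_bij (fun p _ => (p.1.1, p.2.1)) ?_ ?_ ?_
  · intro p hp
    simp only [mem_filter, mem_univ, true_and, SimpleGraph.comap_adj] at hp
    simp only [mem_filter, mem_product]
    refine ⟨⟨?_, ?_⟩, ?_⟩
    · simp
    · simp
    · simpa using hp
  · intro p _ q _ h
    simp only [Prod.mk.injEq] at h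
    exact Prod.ext (Subtype.ext h.1) (Subtype.ext h.2)
  · intro q hq
    simp only [mem_filter, mem_product] at hq
    refine ⟨(⟨q.1, by simpa using hq.1.1⟩, ⟨q.2, by simpa using hq.1.2⟩), ?_, rfl⟩
    simp only [mem_filter, mem_univ, true_and, SimpleGraph.comap_adj]
    simpa using hq.2

lemma two_ncard_univ {n : ℕ} (G : SimpleGraph (Fin n)) :
    2 * G.edgeSet.ncard = oc G univ univ := by
  classical
  rw [two_ncard, oc]
  congr 1

end Counting

/-- `(n, e)` admits a graph all of whose 9-sets span a number of edges different from 18. -/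
def Avoid (n e : ℕ) : Prop :=
  ∃ G : SimpleGraph (Fin n), 2 * e = oc G univ univ ∧
    ∀ S : Finset (Fin n), S.card = 9 → oc G S S ≠ 36

lemma not_arrow_of_avoid {n e : ℕ} (h : Avoid n e) : ¬ Arrow n e 9 18 := by
  obtain ⟨G, hG, hS⟩ := h
  intro hA
  have he : G.edgeSet.ncard = e := by
    have := two_ncard_univ G
    omega
  obtain ⟨S, hS9, h18⟩ := hA G he
  have hne := hS S hS9
  have h2 := two_ncard_induce G S
  have hc : Nat.choose 9 2 = 36 := by decide
  rw [hc] at h18
  rcases h18 with h18 | h18 <;> rw [h18] at h2 <;> omega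

/-- complementation -/
lemma oc_compl {n : ℕ} (G : SimpleGraph (Fin n)) (S : Finset (Fin n)) :
    oc G S S + oc Gᶜ S S = S.card * S.card - S.card := by
  classical
  rw [← Finset.offDiag_card]
  unfold oc
  rw [← Finset.card_union_of_disjoint]
  · congr 1
    ext p
    simp only [mem_union, mem_filter, mem_product, mem_offDiag, SimpleGraph.compl_adj]
    constructor
    · rintro (⟨⟨h1, h2⟩, h3⟩ | ⟨⟨h1, h2⟩, h3, _⟩)
      · exact ⟨h1, h2, h3.ne⟩
      · exact ⟨h1, h2, h3⟩
    · rintro ⟨h1, h2, h3⟩
      by_cases h : G.Adj p.1 p.2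
      · exact Or.inl ⟨⟨h1, h2⟩, h⟩
      · exact Or.inr ⟨⟨h1, h2⟩, h3, h⟩
  · rw [Finset.disjoint_left]
    intro p hp hq
    simp only [mem_filter, SimpleGraph.compl_adj] at hp hq
    exact hq.2.2 hp.2

lemma avoid_compl {n e e' : ℕ} (h : Avoid n e) (he : 2 * (e + e') = n * (n - 1)) :
    Avoid n e' := by
  obtain ⟨G, hG, hS⟩ := h
  refine ⟨Gᶜ, ?_, ?_⟩
  · have := oc_compl G univ
    rw [Finset.card_univ, Fintype.card_fin] at this
    have h3 : n * n - n = n * (n - 1) := by
      rw [Nat.mul_sub, Nat.mul_one]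
    omega
  · intro S h9 h36
    have := oc_compl G S
    rw [h9] at this
    exact hS S h9 (by omega)

section Structure

lemma oc_le_mul {n : ℕ} (G : SimpleGraph (Fin n)) (S T : Finset (Fin n)) :
    oc G S T ≤ S.card * T.card := by
  classical
  rw [oc, ← Finset.card_product]
  exact Finset.card_filter_le _ _

lemma oc_mono {n : ℕ} {G H : SimpleGraph (Fin n)} (h : G ≤ H) (S T : Finset (Fin n)) :
    oc G S T ≤ oc H S T := by
  classical
  unfold oc
  apply Finset.card_le_card
  intro p hp
  simp only [mem_filter] at hp ⊢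
  exact ⟨hp.1, h hp.2⟩

/-- the upper graph: clique on the first `m` vertices, bipartite graph given by `R` on the rest -/
def up (n m s : ℕ) (R : ℕ → ℕ → Prop) : SimpleGraph (Fin n) :=
  SimpleGraph.fromRel (fun x y : Fin n => (x.val < m ∧ y.val < m) ∨
    (m ≤ x.val ∧ x.val < m + s ∧ m + s ≤ y.val ∧ R (x.val - m) (y.val - m - s)))

/-- the two missing clique edges -/
def mis (x y : ℕ) : Prop := x = 0 ∧ (y = 1 ∨ y = 2)

open Classical in
/-- ordered pairs of the two missing clique edges -/
noncomputable def dset (n : ℕ) : Finset (Fin n × Fin n) := univ.filter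
  (fun p => mis p.1.val p.2.val ∨ mis p.2.val p.1.val)

lemma mem_dset {n : ℕ} (x y : Fin n) : (x, y) ∈ dset n ↔
    (mis x.val y.val ∨ mis y.val x.val) := by
  classical
  simp [dset]

/-- the lower graph: clique on the first `m` vertices minus the edges `01`, `02`. -/
def low (n m : ℕ) : SimpleGraph (Fin n) :=
  SimpleGraph.fromRel (fun x y : Fin n => (x.val < m ∧ y.val < m) ∧
    ¬ mis x.val y.val ∧ ¬ mis y.val x.val)

lemma low_le_up {n m s : ℕ} (R : ℕ → ℕ → Prop) : low n m ≤ up n m s R := by
  intro x y h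
  simp only [low, up, SimpleGraph.fromRel_adj] at h ⊢
  refine ⟨h.1, ?_⟩
  rcases h.2 with h2 | h2
  · exact Or.inl (Or.inl h2.1)
  · exact Or.inr (Or.inl h2.1)

/-- decomposition of the ordered count for graphs below `up` -/
lemma oc_split {n m s : ℕ} (R : ℕ → ℕ → Prop) (G : SimpleGraph (Fin n)) (hG : G ≤ up n m s R)
    (S : Finset (Fin n)) :
    oc G S S = oc G (S.filter (fun x => x.val < m)) (S.filter (fun x => x.val < m)) +
      2 * oc G (S.filter (fun x => m ≤ x.val ∧ x.val < m + s)) (S.filter (fun x => m + s ≤ x.val)) := by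
  classical
  have hsymm : oc G (S.filter (fun x => m + s ≤ x.val)) (S.filter (fun x => m ≤ x.val ∧ x.val < m + s))
      = oc G (S.filter (fun x => m ≤ x.val ∧ x.val < m + s)) (S.filter (fun x => m + s ≤ x.val)) := by
    unfold oc
    refine Finset.card_bij (fun p _ => (p.2, p.1)) ?_ ?_ ?_
    · intro p hp
      simp only [mem_filter, mem_product] at hp ⊢
      exact ⟨⟨hp.1.2, hp.1.1⟩, hp.2.symm⟩
    · intro p _ q _ h
      simp only [Prod.mk.injEq] at h
      exact Prod.ext h.2 h.1
    · intro p hp
      simp only [mem_filter, mem_product] at hp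
      refine ⟨(p.2, p.1), ?_, rfl⟩
      simp only [mem_filter, mem_product]
      exact ⟨⟨hp.1.2, hp.1.1⟩, hp.2.symm⟩
  rw [two_mul]
  nth_rewrite 2 [← hsymm]
  unfold oc
  rw [← Finset.card_union_of_disjoint, ← Finset.card_union_of_disjoint]
  · congr 1
    ext ⟨x, y⟩
    simp only [mem_union, mem_filter, mem_product]
    constructor
    · rintro ⟨⟨h1, h2⟩, h3⟩
      have h4 := hG h3
      simp only [up, SimpleGraph.fromRel_adj] at h4
      rcases h4 with ⟨_, (h5 | h5) | (h5 | h5)⟩
      · exact Or.inl ⟨⟨⟨h1, h5.1⟩, h2, h5.2⟩, h3⟩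
      · exact Or.inr (Or.inl ⟨⟨⟨h1, h5.1, h5.2.1⟩, h2, h5.2.2.1⟩, h3⟩)
      · exact Or.inl ⟨⟨⟨h1, h5.2⟩, h2, h5.1⟩, h3⟩
      · exact Or.inr (Or.inr ⟨⟨⟨h1, h5.2.2.1⟩, h2, h5.1, h5.2.1⟩, h3⟩)
    · rintro (⟨⟨h1, h2⟩, h3⟩ | ⟨⟨h1, h2⟩, h3⟩ | ⟨⟨h1, h2⟩, h3⟩)
      · exact ⟨⟨h1.1, h2.1⟩, h3⟩
      · exact ⟨⟨h1.1, h2.1⟩, h3⟩
      · exact ⟨⟨h1.1, h2.1⟩, h3⟩
  · rw [Finset.disjoint_left]
    rintro ⟨x, y⟩ h1 h2
    simp only [mem_union, mem_filter, mem_product] at h1 h2
    omega
  · rw [Finset.disjoint_left]
    rintro ⟨x, y⟩ h1 h2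
    simp only [mem_filter, mem_product] at h1 h2
    omega

lemma clique_upper {n : ℕ} (G : SimpleGraph (Fin n)) (S : Finset (Fin n)) :
    oc G S S ≤ S.card * S.card - S.card := by
  classical
  rw [← Finset.offDiag_card, oc]
  apply Finset.card_le_card
  intro p hp
  simp only [mem_filter, mem_product, mem_offDiag] at hp ⊢
  exact ⟨hp.1.1, hp.1.2, hp.2.ne⟩

lemma clique_lower {n m : ℕ} (G : SimpleGraph (Fin n)) (hG : low n m ≤ G)
    (S : Finset (Fin n)) (hS : ∀ x ∈ S, x.val < m) :
    S.card * S.card - S.card ≤ oc G S S + 4 := by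
  classical
  rw [← Finset.offDiag_card]
  have hD : (dset n).card ≤ 4 := by
    have : (dset n).card ≤ ({(0,1), (0,2), (1,0), (2,0)} : Finset (ℕ × ℕ)).card := by
      apply Finset.card_le_card_of_injOn (fun p => (p.1.val, p.2.val))
      · rintro ⟨x, y⟩ hp
        rw [Finset.mem_coe, mem_dset] at hp
        rw [Finset.mem_coe]
        simp only [mis] at hp
        simp only [mem_insert, mem_singleton, Prod.mk.injEq]
        omega
      · intro p _ q _ h
        simp only [Prod.mk.injEq] at h
        exact Prod.ext (Fin.ext h.1) (Fin.ext h.2)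
    exact this.trans (by decide)
  have hsub : S.offDiag ⊆ ((S ×ˢ S).filter (fun p => G.Adj p.1 p.2)) ∪ dset n := by
    rintro ⟨x, y⟩ hp
    simp only [mem_offDiag] at hp
    simp only [mem_union, mem_filter, mem_product, mem_dset]
    by_cases hd : mis x.val y.val ∨ mis y.val x.val
    · exact Or.inr hd
    · left
      refine ⟨⟨hp.1, hp.2.1⟩, hG ?_⟩
      simp only [low, SimpleGraph.fromRel_adj]
      exact ⟨hp.2.2, Or.inl ⟨⟨hS x hp.1, hS y hp.2.1⟩, fun h => hd (Or.inl h), fun h => hd (Or.inr h)⟩⟩
  calc S.offDiag.card ≤ _ := Finset.card_le_card hsub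
    _ ≤ _ := Finset.card_union_le _ _
    _ ≤ oc G S S + 4 := by unfold oc; omega

/-- a graph between `low` and `up` has no 9-set spanning exactly 18 edges. -/
lemma nine {n m s : ℕ} (R : ℕ → ℕ → Prop)
    (hmax : ∀ TA TB : Finset (Fin n), (∀ x ∈ TA, m ≤ x.val ∧ x.val < m + s) →
      (∀ y ∈ TB, m + s ≤ y.val) → TA.card + TB.card ≤ 9 → oc (up n m s R) TA TB ≤ 17)
    (G : SimpleGraph (Fin n)) (h1 : low n m ≤ G) (h2 : G ≤ up n m s R)
    (S : Finset (Fin n)) (hS : S.card = 9) : oc G S S ≠ 36 := by
  classical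
  have hsplit := oc_split R G h2 S
  set J := S.filter (fun x => x.val < m) with hJ
  set TA := S.filter (fun x => m ≤ x.val ∧ x.val < m + s) with hTA
  set TB := S.filter (fun x => m + s ≤ x.val) with hTB
  have hcard : J.card + TA.card + TB.card = 9 := by
    rw [← hS, hJ, hTA, hTB, ← Finset.card_union_of_disjoint, ← Finset.card_union_of_disjoint]
    · congr 1
      ext x
      simp only [mem_union, mem_filter]
      constructor
      · rintro ((h | h) | h) <;> exact h.1
      · intro h
        by_cases ha : x.val < m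
        · exact Or.inl (Or.inl ⟨h, ha⟩)
        · by_cases hb : x.val < m + s
          · exact Or.inl (Or.inr ⟨h, by omega, hb⟩)
          · exact Or.inr ⟨h, by omega⟩
    · rw [Finset.disjoint_left]
      intro x h1 h2
      simp only [mem_union, mem_filter] at h1 h2
      omega
    · rw [Finset.disjoint_left]
      intro x h1 h2
      simp only [mem_filter] at h1 h2
      omega
  have hp1 := clique_upper G J
  have hp2 := clique_lower G h1 J (by intro x hx; rw [hJ, mem_filter] at hx; exact hx.2)
  have hq1 := oc_le_mul G TA TB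
  have hq2 : oc G TA TB ≤ 17 := (oc_mono h2 TA TB).trans (hmax TA TB
    (by intro x hx; rw [hTA, mem_filter] at hx; exact hx.2)
    (by intro x hx; rw [hTB, mem_filter] at hx; exact hx.2) (by omega))
  generalize oc G J J = p at *
  generalize oc G TA TB = q at *
  rw [hsplit]
  generalize J.card = j at *
  generalize TA.card = a at *
  generalize TB.card = b at *
  have hj : j ≤ 9 := by omega
  have hb : b = 9 - j - a := by omega
  have ha : a ≤ 9 - j := by omega
  subst hb
  clear hsplit hcard
  interval_cases j <;> interval_cases a <;> simp at hp1 hp2 hq1 <;> omega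

lemma avoid_of_struct {n m s h e : ℕ} (R : ℕ → ℕ → Prop) (hm3 : 3 ≤ m) (hmn : m ≤ n)
    (hmax : ∀ TA TB : Finset (Fin n), (∀ x ∈ TA, m ≤ x.val ∧ x.val < m + s) →
      (∀ y ∈ TB, m + s ≤ y.val) → TA.card + TB.card ≤ 9 → oc (up n m s R) TA TB ≤ 17)
    (hcount : h ≤ oc (up n m s R) (univ.filter (fun x => m ≤ x.val ∧ x.val < m + s))
      (univ.filter (fun x => m + s ≤ x.val)))
    (he1 : m * m - m ≤ 2 * e + 4) (he2 : 2 * e ≤ m * m - m + 2 * h) : Avoid n e := by
  classical
  have hJ : (univ.filter (fun x : Fin n => x.val < m)).card = m := by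
    apply le_antisymm
    · calc (univ.filter (fun x : Fin n => x.val < m)).card ≤ (range m).card := by
            apply Finset.card_le_card_of_injOn (fun x => x.val)
            · intro x hx
              rw [Finset.mem_coe] at hx ⊢
              rw [mem_filter] at hx
              exact mem_range.2 hx.2
            · intro x _ y _ hxy
              exact Fin.ext hxy
        _ = m := card_range m
    · calc m = (range m).card := (card_range m).symm
        _ ≤ _ := by
            apply Finset.card_le_card_of_surjOn (fun x : Fin n => x.val)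
            intro i hi
            rw [Finset.mem_coe, mem_range] at hi
            refine ⟨⟨i, by omega⟩, ?_, rfl⟩
            rw [Finset.mem_coe, mem_filter]
            exact ⟨mem_univ _, hi⟩
  -- upper bound for the number of edges of `low`
  have hlow : 2 * (low n m).edgeFinset.card + 4 ≤ m * m - m := by
    have h1 : 2 * (low n m).edgeFinset.card = oc (low n m) univ univ := by
      rw [← two_ncard_univ, ← SimpleGraph.coe_edgeFinset, Set.ncard_coe_finset]
    rw [h1]
    have hD : 4 ≤ (dset n).card := by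
      calc 4 = ({(0,1), (0,2), (1,0), (2,0)} : Finset (ℕ × ℕ)).card := by decide
        _ ≤ (dset n).card := by
            apply Finset.card_le_card_of_surjOn (fun p : Fin n × Fin n => (p.1.val, p.2.val))
            rintro ⟨i, k⟩ hi
            rw [Finset.mem_coe] at hi
            simp only [mem_insert, mem_singleton, Prod.mk.injEq] at hi
            refine ⟨(⟨i, by omega⟩, ⟨k, by omega⟩), ?_, rfl⟩
            rw [Finset.mem_coe, mem_dset]
            simp only [mis]
            omega
    have hdisj : Disjoint ((univ ×ˢ univ : Finset (Fin n × Fin n)).filter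
        (fun p => (low n m).Adj p.1 p.2)) (dset n) := by
      rw [Finset.disjoint_left]
      rintro ⟨x, y⟩ h1 h2
      rw [mem_dset] at h2
      simp only [low, SimpleGraph.fromRel_adj, mem_filter] at h1
      tauto
    have hsub : ((univ ×ˢ univ : Finset (Fin n × Fin n)).filter
        (fun p => (low n m).Adj p.1 p.2)) ∪ dset n ⊆
        (univ.filter (fun x : Fin n => x.val < m)).offDiag := by
      rintro ⟨x, y⟩ h1
      simp only [low, SimpleGraph.fromRel_adj, mem_union, mem_filter, mem_dset, mis] at h1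
      simp only [mem_offDiag, mem_filter, mem_univ, true_and, ne_eq, Fin.ext_iff] at h1 ⊢
      omega
    have h2 := Finset.card_le_card hsub
    rw [Finset.card_union_of_disjoint hdisj, Finset.offDiag_card, hJ] at h2
    unfold oc
    omega
  -- lower bound for the number of edges of `up`
  have hup : m * m - m + 2 * h ≤ 2 * (up n m s R).edgeFinset.card := by
    have h1 : 2 * (up n m s R).edgeFinset.card = oc (up n m s R) univ univ := by
      rw [← two_ncard_univ, ← SimpleGraph.coe_edgeFinset, Set.ncard_coe_finset]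
    rw [h1, oc_split R _ le_rfl]
    have h2 : m * m - m ≤ oc (up n m s R) (univ.filter (fun x : Fin n => x.val < m))
        (univ.filter (fun x : Fin n => x.val < m)) := by
      conv_lhs => rw [← hJ, ← Finset.offDiag_card]
      unfold oc
      apply Finset.card_le_card
      rintro ⟨x, y⟩ hxy
      simp only [mem_offDiag, mem_filter, mem_univ, true_and, mem_product, up,
        SimpleGraph.fromRel_adj] at hxy ⊢
      exact ⟨⟨hxy.1, hxy.2.1⟩, hxy.2.2, Or.inl (Or.inl ⟨hxy.1, hxy.2.1⟩)⟩
    omega
  obtain ⟨u, hu1, hu2, hu3⟩ := Finset.exists_subsuperset_card_eq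
    (s := (low n m).edgeFinset) (t := (up n m s R).edgeFinset) (n := e)
    (SimpleGraph.edgeFinset_subset_edgeFinset.2 (low_le_up R)) (by omega) (by omega)
  let G : SimpleGraph (Fin n) := SimpleGraph.fromEdgeSet (u : Set (Sym2 (Fin n)))
  have hG1 : low n m ≤ G := by
    intro x y hxy
    simp only [G, SimpleGraph.fromEdgeSet_adj]
    refine ⟨?_, hxy.ne⟩
    apply hu1
    rw [SimpleGraph.mem_edgeFinset]
    exact hxy
  have hG2 : G ≤ up n m s R := by
    intro x y hxy
    simp only [G, SimpleGraph.fromEdgeSet_adj] at hxy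
    have := hu2 hxy.1
    rw [SimpleGraph.mem_edgeFinset] at this
    exact this
  have hGe : G.edgeSet = (u : Set (Sym2 (Fin n))) := by
    ext z
    induction z with
    | _ x y =>
      simp only [G, SimpleGraph.mem_edgeSet, SimpleGraph.fromEdgeSet_adj]
      constructor
      · exact fun h => h.1
      · intro h
        refine ⟨h, ?_⟩
        have := hu2 h
        rw [SimpleGraph.mem_edgeFinset, SimpleGraph.mem_edgeSet] at this
        exact this.ne
  refine ⟨G, ?_, ?_⟩
  · rw [← two_ncard_univ, hGe, Set.ncard_coe_finset, hu3]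
  · exact fun S hS => nine R hmax G hG1 hG2 S hS

lemma up_adj_AB {n m s : ℕ} (R : ℕ → ℕ → Prop) {x y : Fin n}
    (hx : m ≤ x.val ∧ x.val < m + s) (hy : m + s ≤ y.val) :
    (up n m s R).Adj x y ↔ R (x.val - m) (y.val - m - s) := by
  simp only [up, SimpleGraph.fromRel_adj, ne_eq, Fin.ext_iff]
  constructor
  · rintro ⟨_, (h | h) | (h | h)⟩
    · omega
    · exact h.2.2.2
    · omega
    · omega
  · intro h
    refine ⟨by omega, Or.inl (Or.inr ⟨hx.1, hx.2, hy, h⟩)⟩

lemma card_le_of_mem_Ico {n a b : ℕ} (T : Finset (Fin n)) (h : ∀ x ∈ T, a ≤ x.val ∧ x.val < b) :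
    T.card ≤ b - a := by
  calc T.card ≤ (Finset.Ico a b).card := by
        apply Finset.card_le_card_of_injOn (fun x => x.val)
        · intro x hx
          rw [Finset.mem_coe] at hx ⊢
          exact Finset.mem_Ico.2 (h x hx)
        · intro x _ y _ hxy
          exact Fin.ext hxy
    _ = b - a := Nat.card_Ico a b

/-- relation used when few vertices lie outside the clique -/
def R1 (_i j : ℕ) : Prop := j < 4

/-- relation used when many vertices lie outside the clique -/
def R2 (i j : ℕ) : Prop := j / 5 ≤ i ∧ i ≤ j / 5 + 2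

lemma hmax1 {n m s : ℕ} (hs : s ≤ 4) : ∀ TA TB : Finset (Fin n),
    (∀ x ∈ TA, m ≤ x.val ∧ x.val < m + s) → (∀ y ∈ TB, m + s ≤ y.val) →
    TA.card + TB.card ≤ 9 → oc (up n m s R1) TA TB ≤ 17 := by
  classical
  intro TA TB hA hB _
  have h1 : oc (up n m s R1) TA TB ≤ TA.card * (TB.filter (fun y => y.val < m + s + 4)).card := by
    rw [← Finset.card_product]
    unfold oc
    apply Finset.card_le_card
    rintro ⟨x, y⟩ hp
    simp only [mem_filter, mem_product] at hp ⊢
    have := (up_adj_AB R1 (hA x hp.1.1) (hB y hp.1.2)).1 hp.2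
    unfold R1 at this
    have := hB y hp.1.2
    exact ⟨hp.1.1, hp.1.2, by omega⟩
  have h2 : TA.card ≤ 4 := (card_le_of_mem_Ico TA hA).trans (by omega)
  have h3 : (TB.filter (fun y => y.val < m + s + 4)).card ≤ 4 := by
    refine (card_le_of_mem_Ico (a := m + s) (b := m + s + 4) _ ?_).trans (by omega)
    intro y hy
    rw [mem_filter] at hy
    exact ⟨hB y hy.1, hy.2⟩
  calc _ ≤ _ := h1
    _ ≤ 4 * 4 := Nat.mul_le_mul h2 h3
    _ ≤ 17 := by norm_num

lemma hcount1 {n m s : ℕ} (hs : m + s ≤ n) :
    s * min (n - m - s) 4 ≤ oc (up n m s R1) (univ.filter (fun x => m ≤ x.val ∧ x.val < m + s))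
      (univ.filter (fun x => m + s ≤ x.val)) := by
  classical
  calc s * min (n - m - s) 4 = ((range s) ×ˢ (range (min (n - m - s) 4))).card := by
        rw [Finset.card_product, card_range, card_range]
    _ ≤ _ := by
        unfold oc
        apply Finset.card_le_card_of_surjOn
          (fun p : Fin n × Fin n => (p.1.val - m, p.2.val - m - s))
        rintro ⟨i, j⟩ hij
        rw [Finset.mem_coe, mem_product, mem_range, mem_range] at hij
        simp only at hij
        refine ⟨(⟨m + i, by omega⟩, ⟨m + s + j, by omega⟩), ?_, ?_⟩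
        · rw [Finset.mem_coe]
          simp only [mem_filter, mem_product, mem_univ, true_and]
          refine ⟨⟨⟨by omega, by omega⟩, by omega⟩, ?_⟩
          rw [up_adj_AB R1 (by simp only; omega) (by simp only; omega)]
          unfold R1
          simp only
          omega
        · simp only [Prod.mk.injEq]
          omega

lemma hmax2 {n m s : ℕ} : ∀ TA TB : Finset (Fin n),
    (∀ x ∈ TA, m ≤ x.val ∧ x.val < m + s) → (∀ y ∈ TB, m + s ≤ y.val) →
    TA.card + TB.card ≤ 9 → oc (up n m s R2) TA TB ≤ 17 := by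
  classical
  intro TA TB hA hB hc
  have hadj : ∀ x ∈ TA, ∀ y ∈ TB, (up n m s R2).Adj x y →
      (y.val - m - s) / 5 ≤ x.val - m ∧ x.val - m ≤ (y.val - m - s) / 5 + 2 :=
    fun x hx y hy h => (up_adj_AB R2 (hA x hx) (hB y hy)).1 h
  have h1 : oc (up n m s R2) TA TB ≤ TA.card * TB.card := oc_le_mul _ _ _
  have h2 : oc (up n m s R2) TA TB ≤ 3 * TB.card := by
    unfold oc
    rw [Finset.card_filter, Finset.sum_product_right]
    calc _ ≤ ∑ y ∈ TB, 3 := by
          apply Finset.sum_le_sum
          intro y hy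
          rw [← Finset.card_filter]
          refine (card_le_of_mem_Ico (a := m + (y.val - m - s) / 5)
            (b := m + (y.val - m - s) / 5 + 3) _ ?_).trans (by omega)
          intro x hx
          rw [mem_filter] at hx
          have := hadj x hx.1 y hy hx.2
          have := hA x hx.1
          omega
      _ = 3 * TB.card := by rw [Finset.sum_const, smul_eq_mul, mul_comm]
  by_contra hcon
  have hB6 : TB.card = 6 := by
    by_contra h6
    have ha : TA.card ≤ 9 - TB.card := by omega
    have hb : TB.card ≤ 9 := by omega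
    have h3 : TA.card * TB.card ≤ (9 - TB.card) * TB.card := Nat.mul_le_mul_right _ ha
    generalize TB.card = b at *
    interval_cases b <;> omega
  have hA3 : TA.card = 3 := by
    rw [hB6] at h1 h2 hc
    omega
  have hall : ∀ p ∈ TA ×ˢ TB, (up n m s R2).Adj p.1 p.2 := by
    rw [← Finset.card_filter_eq_iff]
    apply le_antisymm (Finset.card_filter_le _ _)
    rw [Finset.card_product, hA3, hB6]
    unfold oc at hcon
    omega
  have hmin : ∀ y ∈ TB, ∃ x ∈ TA, x.val = m + (y.val - m - s) / 5 := by
    intro y hy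
    by_contra hno
    push Not at hno
    have : TA.card ≤ 2 := by
      refine (card_le_of_mem_Ico (a := m + (y.val - m - s) / 5 + 1)
        (b := m + (y.val - m - s) / 5 + 3) _ ?_).trans (by omega)
      intro x hx
      have h4 := hadj x hx y hy (hall (x, y) (mem_product.2 ⟨hx, hy⟩))
      have h5 := hA x hx
      have h6 := hno x hx
      omega
    omega
  have heq : ∀ y ∈ TB, ∀ z ∈ TB, (z.val - m - s) / 5 ≤ (y.val - m - s) / 5 := by
    intro y hy z hz
    obtain ⟨x, hx, hxv⟩ := hmin y hy
    have h4 := hadj x hx z hz (hall (x, z) (mem_product.2 ⟨hx, hz⟩))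
    omega
  have hne : TB.Nonempty := by
    rw [← Finset.card_pos]
    omega
  obtain ⟨y0, hy0⟩ := hne
  have : TB.card ≤ 5 := by
    refine (card_le_of_mem_Ico (a := m + s + 5 * ((y0.val - m - s) / 5))
      (b := m + s + 5 * ((y0.val - m - s) / 5) + 5) _ ?_).trans (by omega)
    intro y hy
    have h4 := heq y hy y0 hy0
    have h5 := heq y0 hy0 y hy
    have h6 := hB y hy
    omega
  omega

lemma hcount2 {n m s : ℕ} (hs : m + s ≤ n) (hk : n - m - s ≤ 5 * (s - 2)) (hs2 : 2 ≤ s) :
    3 * (n - m - s) ≤ oc (up n m s R2) (univ.filter (fun x => m ≤ x.val ∧ x.val < m + s))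
      (univ.filter (fun x => m + s ≤ x.val)) := by
  classical
  calc 3 * (n - m - s) = ((range 3) ×ˢ (range (n - m - s))).card := by
        rw [Finset.card_product, card_range, card_range]
    _ ≤ _ := by
        unfold oc
        apply Finset.card_le_card_of_surjOn
          (fun p : Fin n × Fin n => (p.1.val - m - (p.2.val - m - s) / 5, p.2.val - m - s))
        rintro ⟨i, j⟩ hij
        rw [Finset.mem_coe, mem_product, mem_range, mem_range] at hij
        simp only at hij
        refine ⟨(⟨m + j / 5 + i, by omega⟩, ⟨m + s + j, by omega⟩), ?_, ?_⟩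
        · rw [Finset.mem_coe]
          simp only [mem_filter, mem_product, mem_univ, true_and]
          refine ⟨⟨⟨by omega, by omega⟩, by omega⟩, ?_⟩
          rw [up_adj_AB R2 (by simp only; omega) (by simp only; omega)]
          unfold R2
          simp only
          omega
        · simp only [Prod.mk.injEq]
          omega

/-- number of extra edges available outside a clique, with `k` vertices outside -/
def hh (k : ℕ) : ℕ := if k ≤ 9 then (k / 2) * min (k - k / 2) 4 else 3 * (k - (k + 15) / 6)

lemma avoid_of_clique {n m e : ℕ} (hm3 : 3 ≤ m) (hmn : m ≤ n)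
    (he1 : m * m - m ≤ 2 * e + 4) (he2 : 2 * e ≤ m * m - m + 2 * hh (n - m)) : Avoid n e := by
  by_cases hk : n - m ≤ 9
  · have hval : hh (n - m) = ((n - m) / 2) * min (n - m - (n - m) / 2) 4 := by
      unfold hh
      rw [if_pos hk]
    rw [hval] at he2
    exact avoid_of_struct (s := (n - m) / 2) R1 hm3 hmn (hmax1 (by omega))
      (hcount1 (by omega)) he1 he2
  · have hval : hh (n - m) = 3 * (n - m - (n - m + 15) / 6) := by
      unfold hh
      rw [if_neg hk]
    rw [hval] at he2
    exact avoid_of_struct (s := (n - m + 15) / 6) R2 hm3 hmn hmax2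
      (hcount2 (by omega) (by omega) (by omega)) he1 he2

end Structure

section Special

/-- adjacency rows (bit masks) of the special graph with 12 vertices and 33 edges -/
def rows : Fin 12 → ℕ := ![628, 1584, 113, 304, 4079, 4063, 53, 3120, 2616, 2355, 178, 944]

def A (i j : Fin 12) : Bool := (rows i).testBit j.val

lemma A_symm : ∀ i j : Fin 12, A i j = true → A j i = true := by decide +kernel

lemma A_irrefl : ∀ i : Fin 12, ¬ A i i = true := by decide +kernel

def G12 : SimpleGraph (Fin 12) where
  Adj i j := A i j = true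
  symm := ⟨fun i j h => A_symm i j h⟩
  loopless := ⟨fun i h => A_irrefl i h⟩

lemma oc_G12 (S T : Finset (Fin 12)) :
    oc G12 S T = ((S ×ˢ T).filter (fun p => A p.1 p.2 = true)).card := by
  classical
  unfold oc
  congr 1
  ext p
  simp only [mem_filter]
  rfl

lemma G12_total : ((univ ×ˢ univ : Finset (Fin 12 × Fin 12)).filter
    (fun p => A p.1 p.2 = true)).card = 66 := by decide +kernel

lemma G12_nine : ∀ a b c : Fin 12, a < b → b < c →
    (((univ \ {a, b, c}) ×ˢ (univ \ {a, b, c}) : Finset (Fin 12 × Fin 12)).filter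
    (fun p => A p.1 p.2 = true)).card ≠ 36 := by decide +kernel

lemma avoid_12_33 : Avoid 12 33 := by
  classical
  refine ⟨G12, ?_, ?_⟩
  · rw [oc_G12, G12_total]
  · intro S hS
    rw [oc_G12]
    have hT : (univ \ S).card = 3 := by
      rw [Finset.card_sdiff_of_subset (Finset.subset_univ S), hS, Finset.card_univ,
        Fintype.card_fin]
    have hST : S = univ \ (univ \ S) := by
      rw [Finset.sdiff_sdiff_eq_self (Finset.subset_univ S)]
    rw [hST]
    generalize univ \ S = T at hT
    obtain ⟨a, b, c, hab, hac, hbc, rfl⟩ := Finset.card_eq_three.1 hT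
    rcases lt_or_gt_of_ne hab with h1 | h1 <;> rcases lt_or_gt_of_ne hac with h2 | h2 <;>
      rcases lt_or_gt_of_ne hbc with h3 | h3
    · exact G12_nine a b c h1 h3
    · have : ({a, b, c} : Finset (Fin 12)) = {a, c, b} := by
        ext x; simp only [mem_insert, mem_singleton]; tauto
      rw [this]; exact G12_nine a c b h2 h3
    · exact absurd (h1.trans h3) (not_lt.2 h2.le)
    · have : ({a, b, c} : Finset (Fin 12)) = {c, a, b} := by
        ext x; simp only [mem_insert, mem_singleton]; tauto
      rw [this]; exact G12_nine c a b h2 h1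
    · have : ({a, b, c} : Finset (Fin 12)) = {b, a, c} := by
        ext x; simp only [mem_insert, mem_singleton]; tauto
      rw [this]; exact G12_nine b a c h1 h2
    · exact absurd (h2.trans h3) (not_lt.2 h1.le)
    · have : ({a, b, c} : Finset (Fin 12)) = {b, c, a} := by
        ext x; simp only [mem_insert, mem_singleton]; tauto
      rw [this]; exact G12_nine b c a h3 h2
    · have : ({a, b, c} : Finset (Fin 12)) = {c, b, a} := by
        ext x; simp only [mem_insert, mem_singleton]; tauto
      rw [this]; exact G12_nine c b a h3 h1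

end Special

section Covering

/-- the finite part of the covering argument -/
lemma small_check : ∀ n < 182, ∀ m < n, (n < 10 ∨ m < 3 ∨
    m ≤ hh (n - m) + 3 ∨ n * n - n ≤ 2 * (m * m - m) + 4 * hh (n - m) + 3 ∨
      n * n - n + 8 < 2 * (m * m - m) ∨ (n = 12 ∧ m = 8) ∨ (n = 15 ∧ m = 10)) := by
  decide +kernel

lemma large_check {n m : ℕ} (hn : 182 ≤ n) (hm : m ≤ n)
    (h : 2 * (m * m - m) ≤ n * n - n + 8) : m ≤ hh (n - m) + 3 := by
  have h7 : 7 * m ≤ 5 * n - 9 := by
    by_contra hcon
    have h8 : 5 * n ≤ 7 * m + 8 := by omega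
    have hm1 : m ≤ m * m := Nat.le_mul_self m
    have hn1 : n ≤ n * n := Nat.le_mul_self n
    have h9 : 2 * (m * m) + n ≤ n * n + 8 + 2 * m := by omega
    zify at h8 h9 hn
    nlinarith
  unfold hh
  rw [if_neg (by omega)]
  omega

lemma avoid_half {n e : ℕ} (hn : 10 ≤ n) (he : 1 ≤ e) (he2 : 4 * e ≤ n * n - n)
    (h12 : ¬ (n = 12 ∧ e = 33)) (h15 : ¬ (n = 15 ∧ e = 52)) : Avoid n e := by
  classical
  let m := Nat.findGreatest (fun m => m * m - m ≤ 2 * e + 4) n
  have hP : m * m - m ≤ 2 * e + 4 :=
    Nat.findGreatest_spec (P := fun m => m * m - m ≤ 2 * e + 4) (m := 3) (by omega)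
      (by show 3 * 3 - 3 ≤ 2 * e + 4; omega)
  have hm3 : 3 ≤ m := Nat.le_findGreatest (by omega) (by show 3 * 3 - 3 ≤ 2 * e + 4; omega)
  have hmn : m ≤ n := Nat.findGreatest_le n
  have hgt : ∀ k, m < k → k ≤ n → ¬ (k * k - k ≤ 2 * e + 4) := fun k h1 h2 =>
    Nat.findGreatest_is_greatest (P := fun m => m * m - m ≤ 2 * e + 4) h1 h2
  clear_value m
  have hnn : 10 * n ≤ n * n := Nat.mul_le_mul_right n hn
  have hlt : m < n := by
    rcases Nat.lt_or_ge m n with h | h
    · exact h
    · have : m = n := le_antisymm hmn h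
      subst this
      omega
  have hm1 := hgt (m + 1) (by omega) (by omega)
  have hexp : (m + 1) * (m + 1) = m * m + m + (m + 1) := by ring
  rw [hexp] at hm1
  obtain ⟨t, ht⟩ := Nat.even_mul_succ_self m
  have ht' : m * m + m = 2 * t := by
    have : m * (m + 1) = m * m + m := by ring
    omega
  have hmm : m ≤ m * m := Nat.le_mul_self m
  apply avoid_of_clique hm3 hmn (by omega)
  have hcase : m ≤ hh (n - m) + 3 ∨ n * n - n ≤ 2 * (m * m - m) + 4 * hh (n - m) + 3 ∨
      n * n - n + 8 < 2 * (m * m - m) ∨ (n = 12 ∧ m = 8) ∨ (n = 15 ∧ m = 10) := by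
    rcases Nat.lt_or_ge n 182 with h | h
    · rcases small_check n h m hlt with h1 | h1 | h1
      · omega
      · omega
      · exact h1
    · exact Or.inl (large_check h hmn (by omega))
  rcases hcase with h | h | h | ⟨rfl, rfl⟩ | ⟨rfl, rfl⟩
  · omega
  · omega
  · omega
  · have : hh (12 - 8) = 4 := by decide
    rw [this]
    omega
  · have : hh (15 - 10) = 6 := by decide
    rw [this]
    omega

lemma avoid_zero (n : ℕ) : Avoid n 0 := by
  classical
  refine ⟨⊥, ?_, ?_⟩
  · simp [oc]
  · intro S _
    simp [oc]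

lemma avoid_ten {n e : ℕ} (hn : 10 ≤ n) (he : 2 * e ≤ n * n - n) : Avoid n e := by
  have hdouble : ∀ e, 4 * e ≤ n * n - n → Avoid n e := by
    intro e he2
    rcases Nat.eq_zero_or_pos e with h0 | h0
    · subst h0
      exact avoid_zero n
    · by_cases h12 : n = 12 ∧ e = 33
      · obtain ⟨rfl, rfl⟩ := h12
        exact avoid_12_33
      · by_cases h15 : n = 15 ∧ e = 52
        · obtain ⟨rfl, rfl⟩ := h15
          have h53 : Avoid 15 53 := avoid_of_clique (m := 11) (by norm_num) (by norm_num)
            (by norm_num) (by decide)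
          exact avoid_compl h53 (by norm_num)
        · exact avoid_half hn h0 he2 h12 h15
  by_cases h : 4 * e ≤ n * n - n
  · exact hdouble e h
  · obtain ⟨t, ht⟩ := Nat.even_mul_pred_self n
    have hnn : n * (n - 1) = n * n - n := by rw [Nat.mul_sub, Nat.mul_one]
    have h2 : Avoid n (t - e) := hdouble (t - e) (by omega)
    exact avoid_compl h2 (by omega)

end Covering

lemma avoid_nine {e : ℕ} (he : e ≤ 36) (h18 : e ≠ 18) : Avoid 9 e := by
  classical
  obtain ⟨u, hu, hcard⟩ := Finset.exists_subset_card_eq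
    (s := (⊤ : SimpleGraph (Fin 9)).edgeFinset) (n := e) (by
      rw [SimpleGraph.card_edgeFinset_top_eq_card_choose_two, Fintype.card_fin]
      exact he)
  have hGe : (SimpleGraph.fromEdgeSet (u : Set (Sym2 (Fin 9)))).edgeSet
      = (u : Set (Sym2 (Fin 9))) := by
    ext z
    induction z with
    | _ x y =>
      simp only [SimpleGraph.mem_edgeSet, SimpleGraph.fromEdgeSet_adj]
      constructor
      · exact fun h => h.1
      · intro h
        refine ⟨h, ?_⟩
        have := hu h
        rw [SimpleGraph.mem_edgeFinset, SimpleGraph.mem_edgeSet] at this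
        exact this.ne
  have htot : 2 * e = oc (SimpleGraph.fromEdgeSet (u : Set (Sym2 (Fin 9)))) univ univ := by
    rw [← two_ncard_univ, hGe, Set.ncard_coe_finset, hcard]
  refine ⟨SimpleGraph.fromEdgeSet (u : Set (Sym2 (Fin 9))), htot, ?_⟩
  intro S hS
  have hSu : S = univ := by
    rw [← Finset.card_eq_iff_eq_univ, hS, Fintype.card_fin]
  rw [hSu, ← htot]
  omega

/-- **Complete determination.** For `n ≥ 9` and `0 ≤ e ≤ n.choose 2`, the relation
`(n, e) → (9, 18)` holds if and only if `(n, e) = (9, 18)`. -/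
theorem result : ∀ n e : ℕ, 9 ≤ n → e ≤ n.choose 2 →
    (Arrow n e 9 18 ↔ n = 9 ∧ e = 18) := by
  intro n e hn he
  have he' : 2 * e ≤ n * n - n := by
    rw [Nat.choose_two_right] at he
    have hnn : n * (n - 1) = n * n - n := by rw [Nat.mul_sub, Nat.mul_one]
    omega
  constructor
  · intro h
    rcases Nat.lt_or_ge 9 n with h9 | h9
    · exact absurd h (not_arrow_of_avoid (avoid_ten (by omega) he'))
    · have hn9 : n = 9 := by omega
      subst hn9
      refine ⟨rfl, ?_⟩
      by_contra h18
      exact not_arrow_of_avoid (avoid_nine (by omega) h18) h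
  · rintro ⟨rfl, rfl⟩
    intro G hG
    refine ⟨univ, by simp, Or.inl ?_⟩
    have h1 := two_ncard_induce G univ
    have h2 := two_ncard_univ G
    omega

end Pool.Agent.Results.MP_3da5e8_co.Determination
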